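import Pool.Agent.E8helper49.PC.Stm
import Pool.Agent.Y624.OG.ODDG

/-!
# PC (helper49), piece RANK: the parity of the rank in Galois extensions of odd degree
-/

set_option autoImplicit false

namespace Pool.Agent.E8helper69.PC

open WeierstrassCurve Pool.Agent.E8helper49.PC

section

variable (K L : Type) [Field K] [NumberField K] [Field L] [NumberField L] [Algebra K L]

open Classical in
/-- the action of the Galois group on the points -/
noncomputable def ga (W : WeierstrassCurve K) :
    DistribMulAction (L ≃ₐ[K] L) (W.baseChange L).toAffine.Point where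
  smul σ P := Affine.Point.map (W' := W.toAffine) (σ : L →ₐ[K] L) P
  one_smul P := by
    show Affine.Point.map (W' := W.toAffine) ((1 : L ≃ₐ[K] L) : L →ₐ[K] L) P = P
    rcases P with _ | ⟨x, y, h⟩
    · rfl
    · rfl
  mul_smul σ τ P := by
    show Affine.Point.map (W' := W.toAffine) ((σ * τ : L ≃ₐ[K] L) : L →ₐ[K] L) P =
      Affine.Point.map (W' := W.toAffine) (σ : L →ₐ[K] L)
        (Affine.Point.map (W' := W.toAffine) (τ : L →ₐ[K] L) P)
    rcases P with _ | ⟨x, y, h⟩
    · rfl
    · rfl
  smul_zero σ := map_zero _
  smul_add σ P Q := map_add _ _ _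

lemma bc_self (W : WeierstrassCurve K) : W.baseChange K = W := by
  apply WeierstrassCurve.ext <;> rfl

lemma bc_crv (D : ℕ) : (crv D K).baseChange L = crv D L := by
  apply WeierstrassCurve.ext
  · exact map_zero (algebraMap K L)
  · exact map_zero (algebraMap K L)
  · exact map_natCast (algebraMap K L) D
  · exact map_zero (algebraMap K L)
  · exact map_zero (algebraMap K L)

open Classical in
/-- the fixed points are the points over `K` -/
theorem fixed_rank [IsGalois K L] (W : WeierstrassCurve K) :
    letI := ga K L W
    Module.finrank ℤ (FixedPoints.addSubgroup (L ≃ₐ[K] L) (W.baseChange L).toAffine.Point) =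
      Module.finrank ℤ (W.baseChange K).toAffine.Point := by
  letI := ga K L W
  let j : (W.baseChange K).toAffine.Point →+ (W.baseChange L).toAffine.Point :=
    Affine.Point.map (W' := W.toAffine) (Algebra.ofId K L)
  have hj : Function.Injective j := Affine.Point.map_injective _
  have hmem : ∀ P, j P ∈ FixedPoints.addSubgroup (L ≃ₐ[K] L) (W.baseChange L).toAffine.Point := by
    intro P σ
    rcases P with _ | ⟨x, y, h⟩
    · rfl
    · show Affine.Point.map (W' := W.toAffine) (σ : L →ₐ[K] L)
        (Affine.Point.map (W' := W.toAffine) (Algebra.ofId K L) (Affine.Point.some x y h)) =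
        Affine.Point.map (W' := W.toAffine) (Algebra.ofId K L) (Affine.Point.some x y h)
      have e : (σ : L →ₐ[K] L).comp (Algebra.ofId K L) = Algebra.ofId K L :=
        Subsingleton.elim _ _
      rw [Affine.Point.map_map, e]
  let k : (W.baseChange K).toAffine.Point →+
      FixedPoints.addSubgroup (L ≃ₐ[K] L) (W.baseChange L).toAffine.Point := j.codRestrict _ hmem
  have hk : Function.Injective k := by
    intro P Q h
    exact hj (congrArg Subtype.val h)
  have hs : Function.Surjective k := by
    rintro ⟨P, hP⟩
    rcases P with _ | ⟨x, y, h⟩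
    · exact ⟨0, Subtype.ext (map_zero j)⟩
    · have hx : ∀ σ : L ≃ₐ[K] L, σ x = x ∧ σ y = y := by
        intro σ
        have h1 : Affine.Point.map (W' := W.toAffine) (σ : L →ₐ[K] L) (Affine.Point.some x y h) =
            Affine.Point.some x y h := hP σ
        rw [Affine.Point.map_some] at h1
        exact Affine.Point.some.inj h1
      obtain ⟨x0, hx0⟩ := (IsGalois.mem_range_algebraMap_iff_fixed (F := K) x).2 fun σ => (hx σ).1
      obtain ⟨y0, hy0⟩ := (IsGalois.mem_range_algebraMap_iff_fixed (F := K) y).2 fun σ => (hx σ).2
      subst hx0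
      subst hy0
      have h0 : (W.baseChange K).toAffine.Nonsingular x0 y0 :=
        (W.toAffine.baseChange_nonsingular (f := Algebra.ofId K L)
          (Algebra.ofId K L).injective x0 y0).1 h
      exact ⟨Affine.Point.some x0 y0 h0, Subtype.ext rfl⟩
  exact (LinearEquiv.finrank_eq (AddEquiv.ofBijective k ⟨hk, hs⟩).toIntLinearEquiv).symm

end

/-- RANK -/
theorem t_RANK : S_FG → S_RANK := by
  intro hFG K L _ _ _ _ _ _ hodd D hD
  classical
  have hfin : Module.Finite ℤ ((crv D K).baseChange L).toAffine.Point := by
    rw [bc_crv]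
    exact hFG L D hD
  have hG : Odd (Nat.card (L ≃ₐ[K] L)) := by
    rw [IsGalois.card_aut_eq_finrank]
    exact hodd
  letI := ga K L (crv D K)
  have h := Pool.Agent.Y624.OG.ODDG (L ≃ₐ[K] L) ((crv D K).baseChange L).toAffine.Point hG
  have h1 := fixed_rank K L (crv D K)
  rw [h1] at h
  have e1 : Module.finrank ℤ ((crv D K).baseChange L).toAffine.Point = rankE L D := by
    rw [bc_crv]
    rfl
  have e2 : Module.finrank ℤ ((crv D K).baseChange K).toAffine.Point = rankE K D := by
    rw [bc_self]
    rfl
  rw [e1, e2] at h
  exact h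

end Pool.Agent.E8helper69.PC
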